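import Pool.Agent.H41.Refl.O
import Pool.Agent.H41.Refl.Chk

/-!
# Reflexivity of planar point sets

For every `n ≥ 3` there is a set of `n` points in general position every polygonization of which
has at least `(8 ⌊n/10⌋ - 4) / 3` reflex vertices. So `ρ(n) ≥ 4n/15 - O(1)`, and `ρ(n) > n/4` for
all `n ≥ 220`.

The definitions of `GeneralPosition`, `IsPolygonization` and `IsReflex` are in
`Pool.Agent.H41.Refl.L`, those of `reflexivity` and `maxReflexivity` in `Pool.Agent.H41.Refl.O`.
-/

set_option autoImplicit false

namespace Pool.Agent.Results.MP_9bb24e_co.Reflexivity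

open Pool.Agent.H41.Refl

theorem result (n : ℕ) (hn : 3 ≤ n) :
    8 * (n / 10) ≤ 3 * maxReflexivity n + 4 ∧ (220 ≤ n → n < 4 * maxReflexivity n) := by
  have hgo : Good := by unfold Good; rw [← table_eq]; exact search
  have h := bound_reflexivity hgo hn
  exact ⟨h, fun h2 => by omega⟩

end Pool.Agent.Results.MP_9bb24e_co.Reflexivity
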